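import Pool.Agent.Q260.GX.Spec

set_option autoImplicit false

/-!
# Project GX: common lemmas on the density
-/

namespace Pool.Agent.Q162.GX

open MeasureTheory Filter Topology Set
open Pool.Agent.Y23 (Lg one_le_Lg)
open Pool.Agent.Y749.Rig (nT)
open Pool.Agent.Q260.GM (pk sx LL kk h0 kT)
open Pool.Agent.Q260.GX

variable {G : Dat}

lemma DD_cont (hG : G.Good) {x : ℝ} (hx : 0 < x) (h1 : x ≤ 1 / 4) : Continuous (G.DD x) := by
  unfold Dat.DD
  exact (Complex.continuous_re.comp (hG.ldc x hx h1)).neg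

lemma gd_nonneg (κ a y : ℝ) : 0 ≤ G.gd κ a y := by unfold Dat.gd; positivity

lemma gd_cont (hG : G.Good) {κ a : ℝ} (hx : 0 < a / LL κ) (h1 : a / LL κ ≤ 1 / 4) :
    Continuous (G.gd κ a) := by
  unfold Dat.gd
  exact ((((DD_cont hG hx h1).comp (continuous_id.div_const κ))).pow 2).div_const _

lemma gd_int {κ a : ℝ} (hκ : 0 < κ) (Y : ℝ) : ∫ y in (0 : ℝ)..Y, G.gd κ a y =
    κ / LL κ ^ 2 * ∫ t in (0 : ℝ)..(Y / κ), G.DD (a / LL κ) t ^ 2 := by
  unfold Dat.gd
  rw [intervalIntegral.integral_div, intervalIntegral.integral_comp_div (fun t => G.DD (a / LL κ) t ^ 2) hκ.ne',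
    zero_div, smul_eq_mul]
  ring

/-- integrals of functions of quadratic decay against the density -/
lemma gd_integrable {κ a : ℝ} {f : ℝ → ℝ} {B : ℝ} (hf : Continuous f)
    (hgc : Continuous (G.gd κ a)) (hb : ∀ y, |f y| ≤ B * (1 / (1 + y ^ 2)))
    (h : Integrable (fun y => G.gd κ a y / (1 + y ^ 2))) : Integrable (fun y => f y * G.gd κ a y) := by
  refine (h.const_mul B).mono' (hf.mul hgc).aestronglyMeasurable (ae_of_all _ fun y => ?_)
  rw [Real.norm_eq_abs, abs_mul, abs_of_nonneg (gd_nonneg κ a y)]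
  calc |f y| * G.gd κ a y ≤ B * (1 / (1 + y ^ 2)) * G.gd κ a y :=
        mul_le_mul_of_nonneg_right (hb y) (gd_nonneg κ a y)
    _ = _ := by ring

lemma SS_nonneg (κ x : ℝ) : 0 ≤ G.SS κ x := setIntegral_nonneg measurableSet_Ioi fun u _ => by positivity

lemma Dl_meas (hG : G.Good) (κ : ℝ) : Measurable (G.Dl κ) := by
  unfold Dat.Dl
  have h1 : Measurable fun u : ℝ => G.ph (u + κ) := hG.phm.comp (measurable_id.add_const κ)
  exact (by fun_prop : Measurable fun u : ℝ => Real.exp (-(u / 2))).mul (h1.sub hG.phm)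

lemma ph_sq_int (hG : G.Good) {x : ℝ} (hx : 0 < x) :
    IntegrableOn (fun w => G.ph w ^ 2 * Real.exp (-((1 + 2 * x) * w))) (Ioi 0) := hG.l2 _ (by linarith)

lemma ph_sq_shift (hG : G.Good) {κ x : ℝ} (hκ : 0 < κ) (hx : 0 < x) :
    IntegrableOn (fun u => G.ph (u + κ) ^ 2 * Real.exp (-((1 + 2 * x) * (u + κ)))) (Ioi 0) := by
  have h1 : IntegrableOn (fun w : ℝ => G.ph w ^ 2 * Real.exp (-((1 + 2 * x) * w))) (Ioi κ) :=
    (ph_sq_int hG hx).mono_set (Ioi_subset_Ioi hκ.le)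
  have h2 := ((measurePreserving_add_right volume κ).integrableOn_comp_preimage
    (MeasurableEquiv.addRight κ).measurableEmbedding (s := Ioi κ)
    (f := fun w : ℝ => G.ph w ^ 2 * Real.exp (-((1 + 2 * x) * w)))).2 h1
  rw [preimage_add_const_Ioi, sub_self] at h2
  exact h2

lemma Dl_sq_int (hG : G.Good) {κ x : ℝ} (hκ : 0 < κ) (hx : 0 < x) :
    IntegrableOn (fun u => G.Dl κ u ^ 2 * Real.exp (-(2 * x * u))) (Ioi 0) := by
  have h1 := ((ph_sq_shift hG hκ hx).const_mul (2 * Real.exp ((1 + 2 * x) * κ))).add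
    ((ph_sq_int hG hx).const_mul 2)
  refine h1.mono' ?_ (ae_of_all _ fun u => ?_)
  · exact (((Dl_meas hG κ).pow_const 2).mul (by fun_prop)).aestronglyMeasurable
  · rw [Real.norm_eq_abs, abs_of_nonneg (by positivity)]
    show G.Dl κ u ^ 2 * Real.exp (-(2 * x * u)) ≤ 2 * Real.exp ((1 + 2 * x) * κ) *
      (G.ph (u + κ) ^ 2 * Real.exp (-((1 + 2 * x) * (u + κ)))) + 2 * (G.ph u ^ 2 * Real.exp (-((1 + 2 * x) * u)))
    have e1 : Real.exp ((1 + 2 * x) * κ) * Real.exp (-((1 + 2 * x) * (u + κ))) =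
        Real.exp (-((1 + 2 * x) * u)) := by
      rw [← Real.exp_add]; congr 1; ring
    have e2 : G.Dl κ u ^ 2 * Real.exp (-(2 * x * u)) =
        Real.exp (-((1 + 2 * x) * u)) * (G.ph (u + κ) - G.ph u) ^ 2 := by
      unfold Dat.Dl
      rw [mul_pow, ← Real.exp_nat_mul]
      have : Real.exp (-((1 + 2 * x) * u)) = Real.exp (((2 : ℕ) : ℝ) * -(u / 2)) * Real.exp (-(2 * x * u)) := by
        rw [← Real.exp_add]; congr 1; push_cast; ring
      rw [this]; ring
    have e3 : 2 * Real.exp ((1 + 2 * x) * κ) * (G.ph (u + κ) ^ 2 * Real.exp (-((1 + 2 * x) * (u + κ)))) =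
        2 * (Real.exp (-((1 + 2 * x) * u)) * G.ph (u + κ) ^ 2) := by
      rw [← e1]; ring
    rw [e2, e3]
    have h4 : (G.ph (u + κ) - G.ph u) ^ 2 ≤ 2 * G.ph (u + κ) ^ 2 + 2 * G.ph u ^ 2 := by
      nlinarith [sq_nonneg (G.ph (u + κ) + G.ph u)]
    have h5 := mul_le_mul_of_nonneg_left h4 (Real.exp_pos (-((1 + 2 * x) * u))).le
    linarith

lemma Dl_sq_ii (hG : G.Good) {κ : ℝ} (hκ : 0 < κ) {p q : ℝ} (hp : 0 ≤ p) (hq : 0 ≤ q) :
    IntervalIntegrable (fun u => G.Dl κ u ^ 2) volume p q := by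
  have h1 := Dl_sq_int hG hκ (x := 1) one_pos
  have h2 : IntervalIntegrable (fun u => G.Dl κ u ^ 2 * Real.exp (-(2 * 1 * u))) volume p q := by
    rw [intervalIntegrable_iff]
    refine h1.mono_set ?_
    intro u hu
    rw [uIoc, mem_Ioc] at hu
    exact (le_min hp hq).trans_lt hu.1
  have h3 := h2.mul_continuousOn (g := fun u => Real.exp (2 * 1 * u)) (by fun_prop)
  have e : (fun u => G.Dl κ u ^ 2 * Real.exp (-(2 * 1 * u)) * Real.exp (2 * 1 * u)) =
      fun u => G.Dl κ u ^ 2 := by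
    funext u
    rw [mul_assoc, ← Real.exp_add, neg_add_cancel, Real.exp_zero, mul_one]
  rwa [e] at h3

end Pool.Agent.Q162.GX
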