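import Pool.Agent.Q162.GX.Com

set_option autoImplicit false

/-!
# Project GX, job KIL: the pairing with a kernel
-/

namespace Pool.Agent.Q162.GX

open MeasureTheory Filter Topology Set
open Pool.Agent.Y749.Rig (nT)
open Pool.Agent.Q260.GM (pk sx LL kk h0 kT riemann_low)
open Pool.Agent.Q260.GX

/-- **the pairing with a kernel is bounded below by the diagonal** -/
theorem t_KIL (hTL : S_TL) (hLOC : S_LOC) : S_KIL := by
  intro G hG hcr a f B ε ha ha1 hf hf0 hfB hfi hε
  classical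
  set c : ℝ := (G.n / a - G.n ^ 2) / 4 with hc
  have hc0 : 0 ≤ c := by
    have hn := hG.n_pos
    have : G.n ^ 2 ≤ G.n / a := by
      rw [le_div_iff₀ ha]
      nlinarith
    rw [hc]; linarith
  obtain ⟨C, hC, hgen⟩ := hTL G hG hcr a a ha le_rfl
  set g : ℝ → ℝ → ℝ := fun κ y => if Continuous (G.gd κ a) then G.gd κ a y else 0 with hg
  have hg0 : ∀ κ y, 0 ≤ g κ y := by
    intro κ y
    rw [hg]
    simp only
    split_ifs
    · exact gd_nonneg κ a y
    · exact le_rfl
  have hgi : ∀ κ a' b', IntervalIntegrable (g κ) volume a' b' := by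
    intro κ a' b'
    rw [hg]
    simp only
    split_ifs with h
    · exact h.intervalIntegrable _ _
    · exact intervalIntegrable_const
  have hge : ∀ᶠ κ : ℝ in 𝓝[>] 0, g κ = G.gd κ a := by
    filter_upwards [hgen] with κ hk
    have := (hk.2.2.2 a ⟨le_rfl, le_rfl⟩).1
    funext y
    rw [hg]
    simp only
    rw [if_pos this]
  have hR1 : Tendsto (fun R : ℝ => c * ∫ y in (0 : ℝ)..R, f y) atTop (𝓝 (c * ∫ y in Ioi (0 : ℝ), f y)) :=
    (intervalIntegral_tendsto_integral_Ioi 0 hfi tendsto_id).const_mul c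
  obtain ⟨R, hRa, hR0⟩ := ((hR1.eventually (le_mem_nhds (show c * (∫ y in Ioi (0 : ℝ), f y) - ε / 2 <
    c * ∫ y in Ioi (0 : ℝ), f y by linarith))).and (eventually_gt_atTop 0)).exists
  have hlo := riemann_low (l := 𝓝[>] (0 : ℝ)) (g := g) (φ := f) (c := c) hR0 hc0 hg0 hgi hf (fun y _ => hf0 y)
    (fun p q hp hpq ε hε => by
      filter_upwards [hLOC G hG hcr a p q ε ha hp hpq hε, hge] with κ k1 k2
      rw [k2]
      exact k1) (half_pos hε)
  filter_upwards [hlo, hge, hgen] with κ k1 k2 k3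
  obtain ⟨hκ, hκ1, hL1, hgk⟩ := k3
  obtain ⟨hgc, hgin, -, -⟩ := hgk a ⟨le_rfl, le_rfl⟩
  rw [k2] at k1
  have i1 : Integrable (fun y => f y * G.gd κ a y) :=
    gd_integrable hf hgc (fun y => by rw [abs_of_nonneg (hf0 y)]; exact hfB y) hgin
  have hKI : ∫ y in (0 : ℝ)..R, f y * G.gd κ a y ≤ G.KI f κ a := by
    unfold Dat.KI
    rw [intervalIntegral.integral_of_le hR0.le]
    exact setIntegral_mono_set i1.integrableOn
      (ae_of_all _ fun y => mul_nonneg (hf0 y) (gd_nonneg κ a y)) Ioc_subset_Ioi_self.eventuallyLE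
  linarith

end Pool.Agent.Q162.GX
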