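import Pool.Agent.Q162.GX.Com

set_option autoImplicit false

/-!
# Project GX, job LOC: the local lower bound
-/

namespace Pool.Agent.Q162.GX

open MeasureTheory Filter Topology Set
open Pool.Agent.Y749.Rig (nT nT_pos one_lt_log)
open Pool.Agent.Q260.GM (pk sx LL kk h0 kT ev_pos ev_le ev_L T_top r_lim)
open Pool.Agent.Q260.GX

variable {G : Dat}

lemma FZ_finite (hG : G.Good) (T : ℝ) : {i : G.ι | 0 ≤ G.ga i ∧ G.ga i ≤ T}.Finite := by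
  rcases lt_or_ge T 0 with hT | hT
  · refine Set.Finite.subset Set.finite_empty ?_
    intro i hi
    exact absurd (hi.1.trans hi.2) (by linarith)
  · have h1 := (hG.zs 0).tendsto_cofinite_zero
    have hc : 0 < 1 / (1 + T ^ 2) := by positivity
    have h2 := h1.eventually (gt_mem_nhds hc)
    rw [Filter.eventually_cofinite] at h2
    refine h2.subset ?_
    intro i hi
    simp only [Set.mem_setOf_eq, not_lt]
    have h3 : (1 : ℝ) ≤ (G.mu i : ℝ) := by exact_mod_cast hG.mu_pos i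
    have h4 : (G.ga i - 0) ^ 2 ≤ T ^ 2 := by
      rw [sub_zero]
      exact pow_le_pow_left₀ hi.1 hi.2 2
    have h5 : 1 / (1 + T ^ 2) ≤ 1 / (1 + (G.ga i - 0) ^ 2) :=
      one_div_le_one_div_of_le (by positivity) (by linarith)
    have h6 : 0 ≤ 1 / (1 + (G.ga i - 0) ^ 2) := by positivity
    nlinarith

lemma mem_FZ (hG : G.Good) {T : ℝ} {i : G.ι} : i ∈ G.FZ T ↔ 0 ≤ G.ga i ∧ G.ga i ≤ T := by
  unfold Dat.FZ
  rw [dif_pos (FZ_finite hG T), Set.Finite.mem_toFinset]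
  rfl

lemma FZ_mono (hG : G.Good) {T1 T2 : ℝ} (h : T1 ≤ T2) : G.FZ T1 ⊆ G.FZ T2 := by
  intro i hi
  rw [mem_FZ hG] at hi ⊢
  exact ⟨hi.1, hi.2.trans h⟩

lemma QQ_diff (hG : G.Good) {x T1 T2 : ℝ} (hx : 0 < x) (h12 : T1 ≤ T2) :
    1 / x * (G.Ns T2 - G.Ns T1) ≤ G.QQ x T2 - G.QQ x T1 := by
  classical
  set K : G.ι → G.ι → ℝ := fun i j => (G.mu i : ℝ) * G.mu j *
    (4 * x / (4 * x ^ 2 + (G.ga i - G.ga j) ^ 2)) with hK
  have hK0 : ∀ s s', 0 ≤ K s s' := fun s s' => by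
    rw [hK]; positivity
  have hsub : G.FZ T1 ⊆ G.FZ T2 := FZ_mono hG h12
  have e1 : G.Ns T2 - G.Ns T1 = ∑ s ∈ G.FZ T2 \ G.FZ T1, (G.mu s : ℝ) := by
    unfold Dat.Ns
    rw [← Finset.sum_sdiff hsub]; ring
  have e2 : G.QQ x T2 = (∑ s ∈ G.FZ T2 \ G.FZ T1, ∑ s' ∈ G.FZ T2, K s s') +
      ∑ s ∈ G.FZ T1, ∑ s' ∈ G.FZ T2, K s s' := by
    unfold Dat.QQ
    rw [Finset.sum_sdiff hsub]
  have e3 : G.QQ x T1 ≤ ∑ s ∈ G.FZ T1, ∑ s' ∈ G.FZ T2, K s s' := by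
    unfold Dat.QQ
    exact Finset.sum_le_sum fun s _ => Finset.sum_le_sum_of_subset_of_nonneg hsub fun s' _ _ => hK0 s s'
  have e4 : ∑ s ∈ G.FZ T2 \ G.FZ T1, 1 / x * (G.mu s : ℝ) ≤
      ∑ s ∈ G.FZ T2 \ G.FZ T1, ∑ s' ∈ G.FZ T2, K s s' := by
    refine Finset.sum_le_sum fun s hs => ?_
    have hs2 : s ∈ G.FZ T2 := (Finset.mem_sdiff.1 hs).1
    refine le_trans ?_ (Finset.single_le_sum (f := fun s' => K s s') (fun s' _ => hK0 s s') hs2)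
    show 1 / x * (G.mu s : ℝ) ≤ (G.mu s : ℝ) * G.mu s * (4 * x / (4 * x ^ 2 + (G.ga s - G.ga s) ^ 2))
    have e5 : 4 * x / (4 * x ^ 2 + (G.ga s - G.ga s) ^ 2) = 1 / x := by
      rw [sub_self]; field_simp; ring
    rw [e5]
    have h5 : (G.mu s : ℝ) ≤ (G.mu s : ℝ) * G.mu s := by
      have : (1 : ℝ) ≤ (G.mu s : ℝ) := by exact_mod_cast hG.mu_pos s
      nlinarith
    calc 1 / x * (G.mu s : ℝ) ≤ 1 / x * ((G.mu s : ℝ) * G.mu s) :=
          mul_le_mul_of_nonneg_left h5 (by positivity)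
      _ = _ := by ring
  rw [← Finset.mul_sum, ← e1] at e4
  linarith

/-- **the local lower bound** -/
theorem t_LOC (hPM : S_PM) : S_LOC := by
  intro G hG hcr a Y1 Y2 δ ha hY1 h12 hδ
  have hpi := Real.pi_pos
  have hY2 : 0 < Y2 := hY1.trans h12
  obtain ⟨ε, hε0, hε⟩ : ∃ ε : ℝ, 0 < ε ∧ ε * (Y1 + Y2) < δ := by
    refine ⟨δ / (2 * (Y1 + Y2)), by positivity, ?_⟩
    rw [div_mul_eq_mul_div, div_lt_iff₀ (by positivity)]
    nlinarith [mul_pos hδ (add_pos hY1 hY2)]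
  -- the limit of the lower bound
  set r : ℝ → ℝ → ℝ := fun Y κ => Real.log (Y / κ) / LL κ with hr
  set n : ℝ → ℝ → ℝ := fun Y κ => G.Ns (Y / κ) / (Y / κ * Real.log (Y / κ)) with hn
  have hnl : ∀ Y : ℝ, 0 < Y → Tendsto (n Y) (𝓝[>] 0) (𝓝 (G.n / (2 * Real.pi))) := fun Y hY =>
    hG.cnt.comp (T_top hY)
  have hlim : Tendsto (fun κ => Real.pi / (2 * a) * (Y2 * (n Y2 κ * r Y2 κ) - Y1 * (n Y1 κ * r Y1 κ)) -
      G.n ^ 2 * (Y2 * r Y2 κ ^ 2 - Y1 * r Y1 κ ^ 2) / 4 - ε * (Y1 * r Y1 κ ^ 2 + Y2 * r Y2 κ ^ 2)) (𝓝[>] 0)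
      (𝓝 (Real.pi / (2 * a) * (Y2 * (G.n / (2 * Real.pi) * 1) - Y1 * (G.n / (2 * Real.pi) * 1)) -
      G.n ^ 2 * (Y2 * 1 ^ 2 - Y1 * 1 ^ 2) / 4 - ε * (Y1 * 1 ^ 2 + Y2 * 1 ^ 2))) := by
    refine Tendsto.sub (Tendsto.sub (Tendsto.const_mul _ (Tendsto.sub ?_ ?_))
      (Tendsto.div_const (Tendsto.const_mul _ (Tendsto.sub ?_ ?_)) _))
      (Tendsto.const_mul _ (Tendsto.add ?_ ?_))
    · exact ((hnl Y2 hY2).mul (r_lim hY2)).const_mul _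
    · exact ((hnl Y1 hY1).mul (r_lim hY1)).const_mul _
    · exact ((r_lim hY2).pow 2).const_mul _
    · exact ((r_lim hY1).pow 2).const_mul _
    · exact ((r_lim hY1).pow 2).const_mul _
    · exact ((r_lim hY2).pow 2).const_mul _
  have hval : Real.pi / (2 * a) * (Y2 * (G.n / (2 * Real.pi) * 1) - Y1 * (G.n / (2 * Real.pi) * 1)) -
      G.n ^ 2 * (Y2 * 1 ^ 2 - Y1 * 1 ^ 2) / 4 - ε * (Y1 * 1 ^ 2 + Y2 * 1 ^ 2) =
      (G.n / a - G.n ^ 2) / 4 * (Y2 - Y1) - ε * (Y1 + Y2) := by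
    field_simp
    ring
  rw [hval] at hlim
  have hpm := hPM G hG hcr (a / 2) (2 * a) ε (by positivity) (by linarith) hε0
  have hrr : ∀ Y : ℝ, 0 < Y → ∀ᶠ κ : ℝ in 𝓝[>] 0, 1 / 2 ≤ r Y κ ∧ r Y κ ≤ 2 := fun Y hY =>
    ((r_lim hY).eventually (le_mem_nhds (by norm_num))).and ((r_lim hY).eventually (ge_mem_nhds (by norm_num)))
  filter_upwards [hlim.eventually (le_mem_nhds (show (G.n / a - G.n ^ 2) / 4 * (Y2 - Y1) - δ <
      (G.n / a - G.n ^ 2) / 4 * (Y2 - Y1) - ε * (Y1 + Y2) by linarith)),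
    (T_top hY1).eventually hpm, (T_top hY2).eventually hpm, hrr Y1 hY1, hrr Y2 hY2, ev_pos,
    ev_L (max 1 (4 * a)), (T_top hY1).eventually_ge_atTop 10, (T_top hY2).eventually_ge_atTop 10]
    with κ k0 k1 k2 kr1 kr2 hκ hL hT1 hT2
  have hL1 : 1 ≤ LL κ := (le_max_left _ _).trans hL
  have hL4 : 4 * a ≤ LL κ := (le_max_right _ _).trans hL
  have hLp : 0 < LL κ := by linarith
  set x : ℝ := a / LL κ with hx
  have hx0 : 0 < x := by positivity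
  have hx1 : x ≤ 1 / 4 := by rw [hx, div_le_iff₀ hLp]; linarith
  have hgc := gd_cont hG (κ := κ) (a := a) hx0 hx1
  refine k0.trans ?_
  -- the two endpoints
  have main : ∀ Y : ℝ, 0 < Y → 10 ≤ Y / κ → 1 / 2 ≤ r Y κ → r Y κ ≤ 2 →
      (∀ b ∈ Icc (a / 2) (2 * a), |(∫ t in (0 : ℝ)..(Y / κ), G.DD (b / Real.log (Y / κ)) t ^ 2) -
        Y / κ * Real.log (Y / κ) ^ 2 / 4 * (G.RR b (Y / κ) - G.n ^ 2)| ≤
          ε * (Y / κ * Real.log (Y / κ) ^ 2)) →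
      |(∫ y in (0 : ℝ)..Y, G.gd κ a y) - (κ / LL κ ^ 2 * (Real.pi / 2 * G.QQ x (Y / κ)) -
        G.n ^ 2 * (Y * r Y κ ^ 2) / 4)| ≤ ε * (Y * r Y κ ^ 2) := by
    intro Y hY hT hr1 hr2 hp
    set T : ℝ := Y / κ with hTd
    have hTp : 0 < T := by linarith
    have hlT : 1 < Real.log T := one_lt_log (by linarith)
    have hlTp : 0 < Real.log T := by linarith
    have hb : a * r Y κ ∈ Icc (a / 2) (2 * a) := by
      constructor
      · nlinarith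
      · nlinarith
    have e1 : a * r Y κ = x * Real.log T := by
      rw [hr, hx]; simp only; rw [← hTd]; ring
    have h1 := hp (a * r Y κ) hb
    unfold Dat.RR at h1
    rw [e1] at h1
    have e2 : x * Real.log T / Real.log T = x := by field_simp
    rw [e2] at h1
    rw [gd_int hκ, ← hTd]
    set I : ℝ := ∫ t in (0 : ℝ)..T, G.DD x t ^ 2 with hI
    have hYT : Y = T * κ := by rw [hTd]; field_simp
    have hrT : r Y κ = Real.log T / LL κ := by rw [hr]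
    have e3 : κ / LL κ ^ 2 * I - (κ / LL κ ^ 2 * (Real.pi / 2 * G.QQ x T) - G.n ^ 2 * (Y * r Y κ ^ 2) / 4) =
        κ / LL κ ^ 2 * (I - T * Real.log T ^ 2 / 4 * (G.QQ x T / (nT T * Real.log T) - G.n ^ 2)) := by
      rw [hrT, hYT]
      unfold nT
      field_simp
      ring
    rw [e3, abs_mul, abs_of_pos (by positivity : 0 < κ / LL κ ^ 2)]
    calc κ / LL κ ^ 2 * |I - T * Real.log T ^ 2 / 4 * (G.QQ x T / (nT T * Real.log T) - G.n ^ 2)| ≤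
          κ / LL κ ^ 2 * (ε * (T * Real.log T ^ 2)) := mul_le_mul_of_nonneg_left h1 (by positivity)
      _ = _ := by rw [hrT, hYT]; field_simp
  have m1 := main Y1 hY1 hT1 kr1.1 kr1.2 k1
  have m2 := main Y2 hY2 hT2 kr2.1 kr2.2 k2
  have e := intervalIntegral.integral_interval_sub_left (hgc.intervalIntegrable (μ := volume) 0 Y2)
    (hgc.intervalIntegrable 0 Y1)
  rw [← e]
  have hTT : Y1 / κ ≤ Y2 / κ := div_le_div_of_nonneg_right h12.le hκ.le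
  have hq := QQ_diff hG hx0 hTT
  have hN : ∀ Y : ℝ, 0 < Y → 10 ≤ Y / κ → κ / LL κ ^ 2 * (1 / x * G.Ns (Y / κ)) = 1 / a * (Y * (n Y κ * r Y κ)) := by
    intro Y hY hT
    have hlT : 1 < Real.log (Y / κ) := one_lt_log (by linarith)
    have hlTp : Real.log (Y / κ) ≠ 0 := by linarith
    rw [hn, hr, hx]
    simp only
    field_simp
  have hN1 := hN Y1 hY1 hT1
  have hN2 := hN Y2 hY2 hT2
  have hq2 : κ / LL κ ^ 2 * (1 / x * (G.Ns (Y2 / κ) - G.Ns (Y1 / κ))) ≤ κ / LL κ ^ 2 * (G.QQ x (Y2 / κ) - G.QQ x (Y1 / κ)) :=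
    mul_le_mul_of_nonneg_left hq (by positivity)
  have hq3 : 1 / a * (Y2 * (n Y2 κ * r Y2 κ)) - 1 / a * (Y1 * (n Y1 κ * r Y1 κ)) ≤
      κ / LL κ ^ 2 * G.QQ x (Y2 / κ) - κ / LL κ ^ 2 * G.QQ x (Y1 / κ) := by
    rw [← hN1, ← hN2]
    linarith
  have hq4 := mul_le_mul_of_nonneg_left hq3 (show 0 ≤ Real.pi / 2 by positivity)
  have e5 : Real.pi / (2 * a) * (Y2 * (n Y2 κ * r Y2 κ) - Y1 * (n Y1 κ * r Y1 κ)) =
      Real.pi / 2 * (1 / a * (Y2 * (n Y2 κ * r Y2 κ)) - 1 / a * (Y1 * (n Y1 κ * r Y1 κ))) := by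
    field_simp
  rw [e5]
  rw [abs_le] at m1 m2
  linarith [m1.2, m2.1]

end Pool.Agent.Q162.GX
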