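import Pool.Agent.Q162.GX.LOC

set_option autoImplicit false

/-!
# Project GX, job RAV: the pair sums from the averaged bound
-/

namespace Pool.Agent.Q162.GX

open MeasureTheory Filter Topology Set
open Pool.Agent.Y749.Rig (nT nT_pos one_lt_log)
open Pool.Agent.Q260.GM (pk sx LL kk h0 kT ev_pos ev_L kk_cont kk_nonneg kk_le kk_two kk_ge_two sin_one_sq
  kk_one_int riemann_low r_lim)
open Pool.Agent.Q260.GX

variable {G : Dat}

/-- **the kernel integral sees the excess of the pairs** -/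
theorem KI_excess (hTL : S_TL) (hLOC : S_LOC) (hG : G.Good) (hcr : G.Crude) {a : ℝ} (ha : 0 < a)
    (ha1 : a * G.n ≤ 1) {ε : ℝ} (hε : 0 < ε) :
    ∀ᶠ κ : ℝ in 𝓝[>] 0, (G.n / a - G.n ^ 2) / 4 * Real.pi +
      Real.sin 1 ^ 2 * ((∫ y in (0 : ℝ)..2, G.gd κ a y) - 2 * ((G.n / a - G.n ^ 2) / 4)) - ε ≤
        G.KI (kk 1) κ a := by
  classical
  set c : ℝ := (G.n / a - G.n ^ 2) / 4 with hc
  have hc0 : 0 ≤ c := by
    have hn := hG.n_pos
    have : G.n ^ 2 ≤ G.n / a := by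
      rw [le_div_iff₀ ha]
      nlinarith
    rw [hc]; linarith
  obtain ⟨C, hC, hgen⟩ := hTL G hG hcr a a ha le_rfl
  set g : ℝ → ℝ → ℝ := fun κ y => if Continuous (G.gd κ a) then G.gd κ a y else 0 with hg
  have hg0 : ∀ κ y, 0 ≤ g κ y := by
    intro κ y
    rw [hg]
    simp only
    split_ifs
    · exact gd_nonneg κ a y
    · exact le_rfl
  have hgi : ∀ κ a' b', IntervalIntegrable (g κ) volume a' b' := by
    intro κ a' b'
    rw [hg]
    simp only
    split_ifs with h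
    · exact h.intervalIntegrable _ _
    · exact intervalIntegrable_const
  have hge : ∀ᶠ κ : ℝ in 𝓝[>] 0, g κ = G.gd κ a := by
    filter_upwards [hgen] with κ hk
    have := (hk.2.2.2 a ⟨le_rfl, le_rfl⟩).1
    funext y
    rw [hg]
    simp only
    rw [if_pos this]
  have hkc := kk_cont 1
  have hki := kk_one_int.1
  have hR1 : Tendsto (fun R : ℝ => c * ∫ y in (0 : ℝ)..R, kk 1 y) atTop (𝓝 (c * Real.pi)) := by
    have := (intervalIntegral_tendsto_integral_Ioi 0 hki tendsto_id).const_mul c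
    rwa [kk_one_int.2] at this
  obtain ⟨R, hRa, hR2⟩ := ((hR1.eventually (le_mem_nhds (show c * Real.pi - ε / 4 < c * Real.pi by linarith))).and
    (eventually_gt_atTop 2)).exists
  have hlo1 := riemann_low (l := 𝓝[>] (0 : ℝ)) (g := g) (φ := fun y => max (kk 1 y - kk 1 2) 0) (c := c)
    (A := 2) two_pos hc0 hg0 hgi ((hkc.sub continuous_const).max continuous_const) (fun y _ => le_max_right _ _)
    (fun p q hp hpq ε hε => by
      filter_upwards [hLOC G hG hcr a p q ε ha hp hpq hε, hge] with κ k1 k2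
      rw [k2]
      exact k1) (show 0 < ε / 4 by positivity)
  have hlo2 := riemann_low (l := 𝓝[>] (0 : ℝ)) (g := fun κ y => g κ (y + 2)) (φ := fun y => kk 1 (y + 2)) (c := c)
    (A := R - 2) (by linarith) hc0 (fun κ y => hg0 κ (y + 2))
    (fun κ a' b' => by
      have := (hgi κ (a' + 2) (b' + 2)).comp_add_right 2
      simpa using this)
    (hkc.comp (continuous_id.add continuous_const)) (fun y _ => kk_nonneg 1 _)
    (fun p q hp hpq ε hε => by
      filter_upwards [hLOC G hG hcr a (p + 2) (q + 2) ε ha (by linarith) (by linarith) hε, hge] with κ k1 k2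
      rw [k2, intervalIntegral.integral_comp_add_right (fun y => G.gd κ a y) 2]
      refine le_trans (le_of_eq ?_) k1
      ring) (show 0 < ε / 4 by positivity)
  filter_upwards [hlo1, hlo2, hge, hgen] with κ k1 k2 k3 k4
  obtain ⟨hκ, hκ1, hL1, hgk⟩ := k4
  obtain ⟨hgc, hgin, -, -⟩ := hgk a ⟨le_rfl, le_rfl⟩
  simp only [k3] at k1 k2
  have i1 : Integrable (fun y => kk 1 y * G.gd κ a y) :=
    gd_integrable hkc hgc (fun y => by rw [abs_of_nonneg (kk_nonneg 1 y)]; exact kk_le 1 y) hgin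
  have hKI : ∫ y in (0 : ℝ)..R, kk 1 y * G.gd κ a y ≤ G.KI (kk 1) κ a := by
    unfold Dat.KI
    rw [intervalIntegral.integral_of_le (by linarith)]
    exact setIntegral_mono_set i1.integrableOn
      (ae_of_all _ fun y => mul_nonneg (kk_nonneg 1 y) (gd_nonneg κ a y)) Ioc_subset_Ioi_self.eventuallyLE
  have hii : ∀ p q : ℝ, IntervalIntegrable (fun y => kk 1 y * G.gd κ a y) volume p q := fun p q =>
    (hkc.mul hgc).intervalIntegrable _ _
  have hkii : ∀ p q : ℝ, IntervalIntegrable (kk 1) volume p q := fun p q => hkc.intervalIntegrable _ _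
  have hgii : ∀ p q : ℝ, IntervalIntegrable (G.gd κ a) volume p q := fun p q => hgc.intervalIntegrable _ _
  rw [← intervalIntegral.integral_add_adjacent_intervals (hii 0 2) (hii 2 R)] at hKI
  rw [← intervalIntegral.integral_add_adjacent_intervals (hkii 0 2) (hkii 2 R)] at hRa
  -- first part
  have e1 : ∫ y in (0 : ℝ)..2, max (kk 1 y - kk 1 2) 0 = (∫ y in (0 : ℝ)..2, kk 1 y) - 2 * kk 1 2 := by
    have : ∫ y in (0 : ℝ)..2, max (kk 1 y - kk 1 2) 0 = ∫ y in (0 : ℝ)..2, (kk 1 y - kk 1 2) := by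
      refine intervalIntegral.integral_congr fun y hy => ?_
      rw [uIcc_of_le (by norm_num)] at hy
      exact max_eq_left (sub_nonneg.2 (kk_ge_two hy.1 hy.2))
    rw [this, intervalIntegral.integral_sub (hkii _ _) intervalIntegrable_const, intervalIntegral.integral_const]
    simp
  have e2 : ∫ y in (0 : ℝ)..2, max (kk 1 y - kk 1 2) 0 * G.gd κ a y =
      (∫ y in (0 : ℝ)..2, kk 1 y * G.gd κ a y) - kk 1 2 * ∫ y in (0 : ℝ)..2, G.gd κ a y := by
    have : ∫ y in (0 : ℝ)..2, max (kk 1 y - kk 1 2) 0 * G.gd κ a y =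
        ∫ y in (0 : ℝ)..2, (kk 1 y * G.gd κ a y - kk 1 2 * G.gd κ a y) := by
      refine intervalIntegral.integral_congr fun y hy => ?_
      rw [uIcc_of_le (by norm_num)] at hy
      show max (kk 1 y - kk 1 2) 0 * G.gd κ a y = _
      rw [max_eq_left (sub_nonneg.2 (kk_ge_two hy.1 hy.2))]
      ring
    rw [this, intervalIntegral.integral_sub (hii _ _) ((hgii _ _).const_mul _),
      intervalIntegral.integral_const_mul]
  rw [e1, e2] at k1
  -- second part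
  have e3 : ∫ y in (0 : ℝ)..(R - 2), kk 1 (y + 2) = ∫ y in (2 : ℝ)..R, kk 1 y := by
    rw [intervalIntegral.integral_comp_add_right (fun y => kk 1 y) 2]
    congr 1 <;> ring
  have e4 : ∫ y in (0 : ℝ)..(R - 2), kk 1 (y + 2) * G.gd κ a (y + 2) = ∫ y in (2 : ℝ)..R, kk 1 y * G.gd κ a y := by
    rw [intervalIntegral.integral_comp_add_right (fun y => kk 1 y * G.gd κ a y) 2]
    congr 1 <;> ring
  rw [e3, e4] at k2
  rw [kk_two] at k1
  have e5 : c * ((∫ y in (0 : ℝ)..2, kk 1 y) + ∫ y in (2 : ℝ)..R, kk 1 y) =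
    c * (∫ y in (0 : ℝ)..2, kk 1 y) + c * ∫ y in (2 : ℝ)..R, kk 1 y := by ring
  rw [e5] at hRa
  have e6 : c * ((∫ y in (0 : ℝ)..2, kk 1 y) - 2 * Real.sin 1 ^ 2) =
    c * (∫ y in (0 : ℝ)..2, kk 1 y) - 2 * c * Real.sin 1 ^ 2 := by ring
  rw [e6] at k1
  have e7 : Real.sin 1 ^ 2 * ((∫ y in (0 : ℝ)..2, G.gd κ a y) - 2 * c) =
    Real.sin 1 ^ 2 * (∫ y in (0 : ℝ)..2, G.gd κ a y) - 2 * c * Real.sin 1 ^ 2 := by ring
  rw [e7]
  linarith

/-- the integrated density from the averaged bound -/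
lemma G_av (hTL : S_TL) (hT1b : S_T1b) (hLOC : S_LOC) (hSSAV : S_SSAV) (hG : G.Good) (hcr : G.Crude)
    {η : ℝ} (hη : 0 ≤ η) (h : G.AUk η)
    {ε : ℝ} (hε : 0 < ε) : ∃ a0 : ℝ, 0 < a0 ∧ ∀ a : ℝ, 0 < a → a ≤ a0 → ∀ᶠ κ : ℝ in 𝓝[>] 0,
      G.n ^ 2 + 2 * ∫ y in (0 : ℝ)..2, G.gd κ a y ≤ (G.n + 9 / 4 * (η + ε)) / a := by
  obtain ⟨a0, ha0, h1⟩ := hSSAV G hG hcr η (ε / 4) hη h (by positivity)
  have hpi := Real.pi_pos
  have hn1 := hG.n_pos
  have hn0 : 0 < G.n := by linarith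
  refine ⟨min a0 (min (1 / G.n) (ε / (8 * G.n ^ 2))), by positivity, fun a ha haa => ?_⟩
  have haa0 : a ≤ a0 := haa.trans (min_le_left _ _)
  have ha1 : a * G.n ≤ 1 := by
    have := haa.trans ((min_le_right _ _).trans (min_le_left _ _))
    rwa [le_div_iff₀ hn0] at this
  have haε : a * (8 * G.n ^ 2) ≤ ε := by
    have := haa.trans ((min_le_right _ _).trans (min_le_right _ _))
    rwa [le_div_iff₀ (by positivity)] at this
  filter_upwards [h1 a ha haa0, KI_excess hTL hLOC hG hcr ha ha1 (ε := 1 / 4) (by norm_num),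
    (hT1b G hG hcr a a ha le_rfl).1 (1 / 4) (by norm_num), ev_pos, ev_L 1] with κ k1 k2 k3 hκ hL
  have hLp : 0 < LL κ := by linarith
  have hQ : 0 < κ * LL κ ^ 2 := by positivity
  have k4 := (abs_le.1 (k3 a ⟨le_rfl, le_rfl⟩)).1
  set Gi : ℝ := ∫ y in (0 : ℝ)..2, G.gd κ a y with hGi
  set S2 : ℝ := Real.sin 1 ^ 2 with hS2
  have hS : 2 * Real.pi / 9 ≤ S2 := sin_one_sq
  have hS0 : 0 < S2 := lt_of_lt_of_le (by positivity) hS
  -- upper bound for the kernel integral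
  have k5 : 2 / Real.pi * G.KI (kk 1) κ a ≤ (G.n + η + ε / 4) / (2 * a) + 1 / 4 := by
    have e : 2 / Real.pi * (κ * LL κ ^ 2 * G.KI (kk 1) κ a) =
      2 / Real.pi * G.KI (kk 1) κ a * (κ * LL κ ^ 2) := by ring
    rw [e] at k4
    have : 2 / Real.pi * G.KI (kk 1) κ a * (κ * LL κ ^ 2) ≤
        ((G.n + η + ε / 4) / (2 * a) + 1 / 4) * (κ * LL κ ^ 2) := by
      linarith
    exact le_of_mul_le_mul_right this hQ
  have k6 : G.KI (kk 1) κ a ≤ Real.pi / 2 * ((G.n + η + ε / 4) / (2 * a) + 1 / 4) := by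
    have := mul_le_mul_of_nonneg_left k5 (show 0 ≤ Real.pi / 2 by positivity)
    have e : Real.pi / 2 * (2 / Real.pi * G.KI (kk 1) κ a) = G.KI (kk 1) κ a := by field_simp
    rwa [e] at this
  have k7 : S2 * (Gi - 2 * ((G.n / a - G.n ^ 2) / 4)) ≤
      Real.pi / 4 * ((η + ε / 4) / a) + Real.pi / 4 * G.n ^ 2 + Real.pi / 8 + 1 / 4 := by
    have e : Real.pi / 2 * ((G.n + η + ε / 4) / (2 * a) + 1 / 4) - (G.n / a - G.n ^ 2) / 4 * Real.pi =
      Real.pi / 4 * ((η + ε / 4) / a) + Real.pi / 4 * G.n ^ 2 + Real.pi / 8 := by field_simp; ring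
    linarith
  have hnn : 1 ≤ G.n ^ 2 := by nlinarith
  -- excess
  have hx : Gi - 2 * ((G.n / a - G.n ^ 2) / 4) ≤ 9 / 8 * ((η + ε / 4) / a) + 9 / 4 * G.n ^ 2 := by
    by_contra hcon
    push Not at hcon
    have h2 : 0 < (η + ε / 4) / a := by positivity
    have h3 : 2 * Real.pi / 9 * (9 / 8 * ((η + ε / 4) / a) + 9 / 4 * G.n ^ 2) ≤
        S2 * (9 / 8 * ((η + ε / 4) / a) + 9 / 4 * G.n ^ 2) :=
      mul_le_mul_of_nonneg_right hS (by positivity)
    have h4 : S2 * (9 / 8 * ((η + ε / 4) / a) + 9 / 4 * G.n ^ 2) <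
        S2 * (Gi - 2 * ((G.n / a - G.n ^ 2) / 4)) :=
      mul_lt_mul_of_pos_left hcon hS0
    have h5 : 2 * Real.pi / 9 * (9 / 8 * ((η + ε / 4) / a) + 9 / 4 * G.n ^ 2) =
      Real.pi / 4 * ((η + ε / 4) / a) + Real.pi / 2 * G.n ^ 2 := by ring
    rw [h5] at h3
    have h6 : Real.pi / 4 * 1 ≤ Real.pi / 4 * G.n ^ 2 :=
      mul_le_mul_of_nonneg_left hnn (by positivity)
    linarith [Real.pi_gt_three]
  rw [le_div_iff₀ ha]
  have e : (G.n ^ 2 + 2 * Gi) * a = 2 * (Gi - 2 * ((G.n / a - G.n ^ 2) / 4)) * a + G.n := by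
    field_simp; ring
  rw [e]
  have h6 : (Gi - 2 * ((G.n / a - G.n ^ 2) / 4)) * a ≤
      (9 / 8 * ((η + ε / 4) / a) + 9 / 4 * G.n ^ 2) * a :=
    mul_le_mul_of_nonneg_right hx ha.le
  have h7 : (9 / 8 * ((η + ε / 4) / a) + 9 / 4 * G.n ^ 2) * a =
      9 / 8 * (η + ε / 4) + 9 / 4 * (a * G.n ^ 2) := by field_simp
  rw [h7] at h6
  nlinarith

lemma ker_lip {x1 x x' v : ℝ} (h1 : 0 < x1) (hx : x1 ≤ x) (hx' : x1 ≤ x') :
    |4 * x / (4 * x ^ 2 + v ^ 2) - 4 * x' / (4 * x' ^ 2 + v ^ 2)| ≤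
      |x - x'| / x1 * (4 * x1 / (4 * x1 ^ 2 + v ^ 2)) := by
  wlog hxx : x ≤ x' generalizing x x'
  · have h := this hx' hx (le_of_not_ge hxx)
    rw [abs_sub_comm, abs_sub_comm x x']
    exact h
  have hx0 : 0 < x := by linarith
  have hx'0 : 0 < x' := by linarith
  have p1 : 0 < 4 * x ^ 2 + v ^ 2 := by positivity
  have p2 : 0 < 4 * x' ^ 2 + v ^ 2 := by positivity
  have p0 : 0 < 4 * x1 ^ 2 + v ^ 2 := by positivity
  have e : 4 * x / (4 * x ^ 2 + v ^ 2) - 4 * x' / (4 * x' ^ 2 + v ^ 2) =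
      (x - x') * (4 * (v ^ 2 - 4 * x * x') / ((4 * x ^ 2 + v ^ 2) * (4 * x' ^ 2 + v ^ 2))) := by
    field_simp
    ring
  rw [e, abs_mul]
  have e2 : |x - x'| / x1 * (4 * x1 / (4 * x1 ^ 2 + v ^ 2)) = |x - x'| * (4 / (4 * x1 ^ 2 + v ^ 2)) := by
    field_simp
  rw [e2]
  apply mul_le_mul_of_nonneg_left _ (abs_nonneg _)
  rw [abs_div, abs_of_pos (mul_pos p1 p2), div_le_div_iff₀ (mul_pos p1 p2) p0, abs_mul,
    abs_of_pos (by norm_num : (0 : ℝ) < 4)]
  have q1 : |v ^ 2 - 4 * x * x'| ≤ 4 * x' ^ 2 + v ^ 2 := by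
    rw [abs_le]
    have : x * x' ≤ x' * x' := mul_le_mul_of_nonneg_right hxx hx'0.le
    constructor <;> nlinarith [mul_pos hx0 hx'0, sq_nonneg v, sq_nonneg x']
  have q2 : 4 * x1 ^ 2 + v ^ 2 ≤ 4 * x ^ 2 + v ^ 2 := by nlinarith
  calc 4 * |v ^ 2 - 4 * x * x'| * (4 * x1 ^ 2 + v ^ 2) ≤
        4 * (4 * x' ^ 2 + v ^ 2) * (4 * x ^ 2 + v ^ 2) :=
        mul_le_mul (mul_le_mul_of_nonneg_left q1 (by norm_num)) q2 p0.le (by positivity)
    _ = _ := by ring

lemma QQ_lip {x1 x x' : ℝ} (h1 : 0 < x1) (hx : x1 ≤ x) (hx' : x1 ≤ x') (T : ℝ) :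
    |G.QQ x T - G.QQ x' T| ≤ |x - x'| / x1 * G.QQ x1 T := by
  unfold Dat.QQ
  rw [← Finset.sum_sub_distrib, Finset.mul_sum]
  refine (Finset.abs_sum_le_sum_abs _ _).trans (Finset.sum_le_sum fun i _ => ?_)
  rw [← Finset.sum_sub_distrib, Finset.mul_sum]
  refine (Finset.abs_sum_le_sum_abs _ _).trans (Finset.sum_le_sum fun j _ => ?_)
  rw [← mul_sub, abs_mul, abs_of_nonneg (by positivity : (0 : ℝ) ≤ (G.mu i : ℝ) * G.mu j)]
  have h2 := ker_lip (v := G.ga i - G.ga j) h1 hx hx'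
  calc (G.mu i : ℝ) * G.mu j * |4 * x / (4 * x ^ 2 + (G.ga i - G.ga j) ^ 2) -
        4 * x' / (4 * x' ^ 2 + (G.ga i - G.ga j) ^ 2)| ≤
        (G.mu i : ℝ) * G.mu j * (|x - x'| / x1 * (4 * x1 / (4 * x1 ^ 2 + (G.ga i - G.ga j) ^ 2))) :=
        mul_le_mul_of_nonneg_left h2 (by positivity)
    _ = _ := by ring

/-- the pair sums are Lipschitz in the parameter -/
lemma R_lip (hcr : G.Crude) {a1 : ℝ} (h1 : 0 < a1) (h11 : a1 ≤ 1) : ∃ C : ℝ, 0 < C ∧
    ∀ᶠ T : ℝ in atTop, ∀ a ∈ Ici a1, ∀ a' ∈ Ici a1, |G.RR a T - G.RR a' T| ≤ C * |a - a'| := by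
  obtain ⟨K, hK, h⟩ := hcr
  refine ⟨K / a1 ^ 2, by positivity, ?_⟩
  filter_upwards [h, eventually_ge_atTop 10] with T hT hT10 a ha a' ha'
  rw [mem_Ici] at ha ha'
  have hL : 1 < Real.log T := one_lt_log (by linarith)
  have hLp : 0 < Real.log T := by linarith
  have hn := nT_pos hT10
  have hD : 0 < nT T * Real.log T := by positivity
  have h2 := hT a1 h1 h11
  have h3 : G.RR a1 T ≤ K / a1 := by
    rw [le_div_iff₀ h1]; linarith
  have h4 := QQ_lip (G := G) (x1 := a1 / Real.log T) (x := a / Real.log T) (x' := a' / Real.log T)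
    (by positivity) (div_le_div_of_nonneg_right ha hLp.le) (div_le_div_of_nonneg_right ha' hLp.le) T
  have e1 : |a / Real.log T - a' / Real.log T| / (a1 / Real.log T) = |a - a'| / a1 := by
    rw [← sub_div, abs_div, abs_of_pos hLp]
    field_simp
  rw [e1] at h4
  have e2 : G.RR a T - G.RR a' T = (G.QQ (a / Real.log T) T - G.QQ (a' / Real.log T) T) /
      (nT T * Real.log T) := by unfold Dat.RR; ring
  rw [e2, abs_div, abs_of_pos hD]
  calc |G.QQ (a / Real.log T) T - G.QQ (a' / Real.log T) T| / (nT T * Real.log T) ≤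
        |a - a'| / a1 * G.QQ (a1 / Real.log T) T / (nT T * Real.log T) :=
        div_le_div_of_nonneg_right h4 hD.le
    _ = |a - a'| / a1 * G.RR a1 T := by unfold Dat.RR; ring
    _ ≤ |a - a'| / a1 * (K / a1) := mul_le_mul_of_nonneg_left h3 (by positivity)
    _ = _ := by ring

/-- **the pair sums from the averaged bound** -/
theorem t_RAV (hPM : S_PM) (hTL : S_TL) (hT1b : S_T1b) (hLOC : S_LOC) (hSSAV : S_SSAV) : S_RAV := by
  intro G hG hcr η ε hη h hε
  obtain ⟨a0, ha0, h1⟩ := G_av hTL hT1b hLOC hSSAV hG hcr hη h (ε := ε / 9) (by positivity)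
  have hn1 := hG.n_pos
  refine ⟨min a0 1, by positivity, fun a ha haa => ?_⟩
  have haa0 : a ≤ a0 := haa.trans (min_le_left _ _)
  have ha1 : a ≤ 1 := haa.trans (min_le_right _ _)
  have h2 := h1 a ha haa0
  obtain ⟨C, hC, hlip⟩ := R_lip hcr (a1 := a / 2) (by positivity) (by linarith)
  set U : ℝ := (G.n + 9 / 4 * (η + ε / 9)) / a with hU
  have hU0 : 0 < U := by positivity
  have hinv : Tendsto (fun T : ℝ => 2 / T) atTop (𝓝[>] 0) := by
    have : Tendsto (fun T : ℝ => (T / 2)⁻¹) atTop (𝓝[>] 0) :=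
      tendsto_inv_atTop_nhdsGT_zero.comp (tendsto_id.atTop_div_const two_pos)
    refine this.congr fun T => ?_
    rw [inv_div]
  have hr : Tendsto (fun T : ℝ => Real.log T / LL (2 / T)) atTop (𝓝 1) := by
    have := (r_lim two_pos).comp hinv
    refine this.congr' ?_
    filter_upwards [eventually_gt_atTop (0 : ℝ)] with T hT
    show Real.log (2 / (2 / T)) / LL (2 / T) = _
    have e : 2 / (2 / T) = T := by field_simp
    rw [e]
  -- the error terms
  have hlim : Tendsto (fun T : ℝ => (U - G.n ^ 2) / (Real.log T / LL (2 / T)) ^ 2 + G.n ^ 2 + 4 * (ε / 16) +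
      C * |a * (Real.log T / LL (2 / T)) - a|) atTop
      (𝓝 ((U - G.n ^ 2) / 1 ^ 2 + G.n ^ 2 + 4 * (ε / 16) + C * |a * 1 - a|)) := by
    refine Tendsto.add (Tendsto.add_const _ (Tendsto.add_const _ (Tendsto.div tendsto_const_nhds (hr.pow 2) (by norm_num))))
      (Tendsto.const_mul _ (((hr.const_mul a).sub_const a).abs))
  have hval : (U - G.n ^ 2) / 1 ^ 2 + G.n ^ 2 + 4 * (ε / 16) + C * |a * 1 - a| = U + ε / 4 := by
    rw [mul_one, sub_self, abs_zero]; ring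
  rw [hval] at hlim
  filter_upwards [hinv.eventually h2, hlip, hPM G hG hcr (a / 2) (2 * a) (ε / 16) (by positivity) (by linarith)
    (by positivity), hr.eventually (le_mem_nhds (show (1 / 2 : ℝ) < 1 by norm_num)),
    hr.eventually (ge_mem_nhds (show (1 : ℝ) < 2 by norm_num)), eventually_ge_atTop 10,
    hlim.eventually (ge_mem_nhds (show U + ε / 4 < U + ε / 2 by linarith)),
    hinv.eventually (ev_L 1)] with T k1 k2 k3 k4 k5 hT k6 hL
  have hTp : 0 < T := by linarith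
  have hlT : 1 < Real.log T := one_lt_log (by linarith)
  have hlTp : 0 < Real.log T := by linarith
  have hLp : 0 < LL (2 / T) := by linarith
  set r : ℝ := Real.log T / LL (2 / T) with hrd
  have hr0 : 0 < r := by linarith
  have hb : a * r ∈ Icc (a / 2) (2 * a) := by
    constructor
    · nlinarith
    · nlinarith
  have haI : a ∈ Ici (a / 2) := by rw [mem_Ici]; linarith
  have l1 := k3 (a * r) hb
  have e1 : a * r / Real.log T = a / LL (2 / T) := by rw [hrd]; field_simp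
  rw [e1] at l1
  have l2 := k2 (a * r) hb.1 a haI
  rw [gd_int (by positivity)] at k1
  have e2 : 2 / (2 / T) = T := by field_simp
  rw [e2] at k1
  set X : ℝ := ∫ t in (0 : ℝ)..T, G.DD (a / LL (2 / T)) t ^ 2 with hX
  set R' : ℝ := G.RR (a * r) T
  set R : ℝ := G.RR a T
  have hP : 0 < T * Real.log T ^ 2 := by positivity
  -- X ≤ ...
  have l3 : 4 * X ≤ (U - G.n ^ 2) / r ^ 2 * (T * Real.log T ^ 2) := by
    have e3 : 2 * (2 / T / LL (2 / T) ^ 2 * X) = 4 * X / (T * Real.log T ^ 2) * r ^ 2 := by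
      rw [hrd]; field_simp; ring
    have h4 : 4 * X / (T * Real.log T ^ 2) * r ^ 2 ≤ U - G.n ^ 2 := by rw [← e3]; linarith
    rw [← le_div_iff₀ (by positivity)] at h4
    rwa [div_le_iff₀ hP] at h4
  have l4 := (abs_le.1 l1).1
  have l5 : (R' - G.n ^ 2) * (T * Real.log T ^ 2) ≤
      ((U - G.n ^ 2) / r ^ 2 + 4 * (ε / 16)) * (T * Real.log T ^ 2) := by
    nlinarith
  have l6 : R' - G.n ^ 2 ≤ (U - G.n ^ 2) / r ^ 2 + 4 * (ε / 16) := le_of_mul_le_mul_right l5 hP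
  have l7 : R ≤ U + ε / 2 := by
    have := (abs_le.1 l2).1
    linarith
  calc a * R ≤ a * (U + ε / 2) := mul_le_mul_of_nonneg_left l7 ha.le
    _ = (G.n + 9 / 4 * (η + ε / 9)) + a * (ε / 2) := by rw [hU]; field_simp
    _ ≤ _ := by nlinarith

end Pool.Agent.Q162.GX
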