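import Pool.Agent.Q162.GX.Com

set_option autoImplicit false

/-!
# Project GX, job SSAV: the weighted integral from the averaged bound
-/

namespace Pool.Agent.Q162.GX

open MeasureTheory Filter Topology Set
open Pool.Agent.Y749.Rig (nT)
open Pool.Agent.Q260.GM (pk sx LL kk h0 kT ev_pos ev_L exp_sum abel_sum)
open Pool.Agent.Q260.GX

/-- **the weighted integral from the averaged bound** -/
theorem t_SSAV (hT1b : S_T1b) : S_SSAV := by
  intro G hG hcr η ε hη h hε
  obtain ⟨b0, hb0, hb⟩ := h (ε / 2) (by positivity)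
  have hn1 := hG.n_pos
  set K : ℝ := G.n + η + ε / 2 with hK
  have hK0 : 0 < K := by positivity
  set W : ℝ := K * b0 with hW
  have hW0 : 0 < W := by positivity
  refine ⟨ε / 4 / (W + K + 1), by positivity, fun a ha haa => ?_⟩
  have haa' : a * (W + K + 1) ≤ ε / 4 := by rwa [le_div_iff₀ (by positivity)] at haa
  obtain ⟨C, hC, hSS⟩ := (hT1b G hG hcr (a / 2) (a / 2) (by positivity) le_rfl).2
  -- the cut
  obtain ⟨N, hN1, hN2⟩ : ∃ N : ℕ, 1 ≤ N ∧ Real.exp (-(a * N)) * C ≤ 1 := by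
    obtain ⟨N, hN⟩ := exists_nat_ge (max 1 (C / a))
    refine ⟨N, ?_, ?_⟩
    · have : (1 : ℝ) ≤ N := (le_max_left _ _).trans hN
      exact_mod_cast this
    · have h1 : C / a ≤ N := (le_max_right _ _).trans hN
      rw [div_le_iff₀ ha] at h1
      have h2 : C ≤ Real.exp (a * N) := by
        have := Real.add_one_le_exp (a * N)
        linarith
      calc Real.exp (-(a * N)) * C ≤ Real.exp (-(a * N)) * Real.exp (a * N) :=
            mul_le_mul_of_nonneg_left h2 (Real.exp_pos _).le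
        _ = 1 := by rw [← Real.exp_add]; simp
  have hcum : ∀ᶠ κ : ℝ in 𝓝[>] 0, ∀ j ∈ Finset.range (N + 1), ∫ u in (0 : ℝ)..(max b0 j * LL κ), G.Dl κ u ^ 2 ≤
      K * max b0 j * (κ * LL κ ^ 2) := by
    rw [eventually_all_finset]
    intro j _
    exact hb (max b0 j) (le_max_left _ _)
  filter_upwards [hcum, hSS, ev_pos, ev_L 1] with κ k1 k3 hκ hL
  have hLp : 0 < LL κ := by linarith
  have hQ : 0 < κ * LL κ ^ 2 := by positivity
  -- the blocks
  set I : ℕ → ℝ := fun j => ∫ u in (j * LL κ)..((j + 1 : ℕ) * LL κ), G.Dl κ u ^ 2 with hI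
  have hsumI : ∀ j : ℕ, ∑ i ∈ Finset.range j, I i = ∫ u in (0 : ℝ)..(j * LL κ), G.Dl κ u ^ 2 := by
    intro j
    have := intervalIntegral.sum_integral_adjacent_intervals (a := fun k : ℕ => (k : ℝ) * LL κ) (n := j)
      (f := fun u => G.Dl κ u ^ 2) (μ := volume) fun k _ => Dl_sq_ii hG hκ (by positivity) (by positivity)
    simp only [Nat.cast_zero, zero_mul] at this
    exact this
  have hcumI : ∀ j ≤ N, ∑ i ∈ Finset.range j, I i ≤ W * (κ * LL κ ^ 2) + K * (κ * LL κ ^ 2) * j := by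
    intro j hj
    rw [hsumI]
    have h1 := k1 j (Finset.mem_range.2 (by omega))
    have hm1 : (1 : ℝ) ≤ max b0 j := hb0.trans (le_max_left _ _)
    have hjm : (j : ℝ) ≤ max b0 j := le_max_right _ _
    have h2 : ∫ u in (0 : ℝ)..(j * LL κ), G.Dl κ u ^ 2 ≤ ∫ u in (0 : ℝ)..(max b0 j * LL κ), G.Dl κ u ^ 2 :=
      intervalIntegral.integral_mono_interval le_rfl (by positivity)
        (mul_le_mul_of_nonneg_right hjm hLp.le) (ae_of_all _ fun u => sq_nonneg _)
        (Dl_sq_ii hG hκ le_rfl (by positivity))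
    have hj0 : (0 : ℝ) ≤ j := Nat.cast_nonneg j
    have h4 : max b0 (j : ℝ) ≤ b0 + j := max_le (by linarith) (by linarith)
    have h5 : K * max b0 j * (κ * LL κ ^ 2) ≤ K * (b0 + j) * (κ * LL κ ^ 2) := by gcongr
    have e : W * (κ * LL κ ^ 2) + K * (κ * LL κ ^ 2) * j = K * (b0 + j) * (κ * LL κ ^ 2) := by
      rw [hW]; ring
    rw [e]
    linarith
  have hab := abel_sum (φ := fun j : ℕ => Real.exp (-(2 * a * j))) (I := I) (W := W * (κ * LL κ ^ 2))
    (K := K * (κ * LL κ ^ 2)) (fun j => by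
      show Real.exp (-(2 * a * ((j + 1 : ℕ) : ℝ))) ≤ Real.exp (-(2 * a * j))
      rw [Real.exp_le_exp]; push_cast; nlinarith) (fun j => (Real.exp_pos _).le) (by positivity) N hcumI
  -- the near part
  have hDi := Dl_sq_int hG hκ (x := a / LL κ) (by positivity)
  have hDi2 := Dl_sq_int hG hκ (x := a / 2 / LL κ) (by positivity)
  have hii : ∀ p q : ℝ, 0 ≤ p → 0 ≤ q →
      IntervalIntegrable (fun u => G.Dl κ u ^ 2 * Real.exp (-(2 * (a / LL κ) * u))) volume p q :=
    fun p q hp hq => (Dl_sq_ii hG hκ hp hq).mul_continuousOn (by fun_prop)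
  have hnear : ∫ u in (0 : ℝ)..(N * LL κ), G.Dl κ u ^ 2 * Real.exp (-(2 * (a / LL κ) * u)) ≤
      ∑ j ∈ Finset.range N, Real.exp (-(2 * a * j)) * I j := by
    have := intervalIntegral.sum_integral_adjacent_intervals (a := fun k : ℕ => (k : ℝ) * LL κ) (n := N)
      (f := fun u => G.Dl κ u ^ 2 * Real.exp (-(2 * (a / LL κ) * u))) (μ := volume)
      fun k _ => hii _ _ (by positivity) (by positivity)
    simp only [Nat.cast_zero, zero_mul] at this
    rw [← this]
    refine Finset.sum_le_sum fun j _ => ?_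
    rw [hI]
    simp only
    rw [← intervalIntegral.integral_const_mul]
    refine intervalIntegral.integral_mono_on ?_ (hii _ _ (by positivity) (by positivity))
      ((Dl_sq_ii hG hκ (by positivity) (by positivity)).const_mul _) fun u hu => ?_
    · push_cast; nlinarith
    · rw [mul_comm]
      apply mul_le_mul_of_nonneg_right _ (sq_nonneg _)
      rw [Real.exp_le_exp]
      have h1 : (j : ℝ) ≤ u / LL κ := by rw [le_div_iff₀ hLp]; exact hu.1
      have e : 2 * (a / LL κ) * u = 2 * a * (u / LL κ) := by ring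
      rw [e]
      nlinarith
  -- the tail
  have htail : ∫ u in Ioi (N * LL κ), G.Dl κ u ^ 2 * Real.exp (-(2 * (a / LL κ) * u)) ≤ κ * LL κ ^ 2 := by
    have hN0 : (0 : ℝ) ≤ N * LL κ := by positivity
    have hDi2' : IntegrableOn (fun u => G.Dl κ u ^ 2 * Real.exp (-(2 * (a / 2 / LL κ) * u))) (Ioi (N * LL κ)) :=
      hDi2.mono_set (Ioi_subset_Ioi hN0)
    calc ∫ u in Ioi (N * LL κ), G.Dl κ u ^ 2 * Real.exp (-(2 * (a / LL κ) * u)) ≤
          ∫ u in Ioi (N * LL κ), Real.exp (-(a * N)) * (G.Dl κ u ^ 2 * Real.exp (-(2 * (a / 2 / LL κ) * u))) := by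
          refine setIntegral_mono_on (hDi.mono_set (Ioi_subset_Ioi hN0)) (hDi2'.const_mul _) measurableSet_Ioi
            fun u hu => ?_
          have h1 : (N : ℝ) ≤ u / LL κ := by rw [le_div_iff₀ hLp]; exact le_of_lt hu
          have e1 : Real.exp (-(a * N)) * (G.Dl κ u ^ 2 * Real.exp (-(2 * (a / 2 / LL κ) * u))) =
              G.Dl κ u ^ 2 * (Real.exp (-(a * N)) * Real.exp (-(2 * (a / 2 / LL κ) * u))) := by ring
          rw [e1, ← Real.exp_add]
          apply mul_le_mul_of_nonneg_left _ (sq_nonneg _)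
          rw [Real.exp_le_exp]
          have e2 : 2 * (a / LL κ) * u = 2 * a * (u / LL κ) := by ring
          have e3 : 2 * (a / 2 / LL κ) * u = a * (u / LL κ) := by ring
          rw [e2, e3]
          nlinarith
      _ = Real.exp (-(a * N)) * ∫ u in Ioi (N * LL κ), G.Dl κ u ^ 2 * Real.exp (-(2 * (a / 2 / LL κ) * u)) :=
          integral_const_mul _ _
      _ ≤ Real.exp (-(a * N)) * G.SS κ (a / 2 / LL κ) := by
          apply mul_le_mul_of_nonneg_left _ (Real.exp_pos _).le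
          unfold Dat.SS
          exact setIntegral_mono_set hDi2 (ae_of_all _ fun u => by positivity)
            (Ioi_subset_Ioi hN0).eventuallyLE
      _ ≤ Real.exp (-(a * N)) * (C * (κ * LL κ ^ 2)) := by
          apply mul_le_mul_of_nonneg_left _ (Real.exp_pos _).le
          exact k3 (a / 2) ⟨le_rfl, le_rfl⟩
      _ = Real.exp (-(a * N)) * C * (κ * LL κ ^ 2) := by ring
      _ ≤ 1 * (κ * LL κ ^ 2) := mul_le_mul_of_nonneg_right hN2 hQ.le
      _ = _ := one_mul _
  have hsplit : G.SS κ (a / LL κ) = (∫ u in (0 : ℝ)..(N * LL κ), G.Dl κ u ^ 2 * Real.exp (-(2 * (a / LL κ) * u))) +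
      ∫ u in Ioi (N * LL κ), G.Dl κ u ^ 2 * Real.exp (-(2 * (a / LL κ) * u)) := by
    unfold Dat.SS
    have := intervalIntegral.integral_Ioi_sub_Ioi hDi (b := N * LL κ) (by positivity)
    linarith
  rw [hsplit]
  have hexp := exp_sum ha N
  have h6 : K * (κ * LL κ ^ 2) * ∑ j ∈ Finset.range N, Real.exp (-(2 * a * j)) ≤
      K * (κ * LL κ ^ 2) * (1 + 1 / (2 * a)) := mul_le_mul_of_nonneg_left hexp (by positivity)
  have e7 : Real.exp (-(2 * a * ((0 : ℕ) : ℝ))) = 1 := by simp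
  have h8 : (∫ u in (0 : ℝ)..(N * LL κ), G.Dl κ u ^ 2 * Real.exp (-(2 * (a / LL κ) * u))) ≤
      W * (κ * LL κ ^ 2) + K * (κ * LL κ ^ 2) * (1 + 1 / (2 * a)) := by
    refine hnear.trans (hab.trans ?_)
    show W * (κ * LL κ ^ 2) * Real.exp (-(2 * a * ((0 : ℕ) : ℝ))) + _ ≤ _
    rw [e7, mul_one]
    linarith
  have h9 : W + K * (1 + 1 / (2 * a)) + 1 ≤ (G.n + η + ε) / (2 * a) := by
    rw [le_div_iff₀ (by positivity)]
    have e : (W + K * (1 + 1 / (2 * a)) + 1) * (2 * a) = 2 * (a * (W + K + 1)) + K := by field_simp; ring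
    rw [e, hK]
    rw [hK] at haa'
    linarith
  calc (∫ u in (0 : ℝ)..(N * LL κ), G.Dl κ u ^ 2 * Real.exp (-(2 * (a / LL κ) * u))) +
        ∫ u in Ioi (N * LL κ), G.Dl κ u ^ 2 * Real.exp (-(2 * (a / LL κ) * u)) ≤
        (W * (κ * LL κ ^ 2) + K * (κ * LL κ ^ 2) * (1 + 1 / (2 * a))) + κ * LL κ ^ 2 := add_le_add h8 htail
    _ = (W + K * (1 + 1 / (2 * a)) + 1) * (κ * LL κ ^ 2) := by ring
    _ ≤ _ := mul_le_mul_of_nonneg_right h9 hQ.le

end Pool.Agent.Q162.GX
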