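import Pool.Agent.Q162.GX.Com

set_option autoImplicit false

/-!
# Project GX, job T1b: the fundamental relation
-/

namespace Pool.Agent.Q162.GX

open MeasureTheory Filter Topology Set
open Pool.Agent.Y23 (Lg one_le_Lg)
open Pool.Agent.Y749.Rig (nT)
open Pool.Agent.Q260.GM (pk sx LL kk h0 kT h0_even ev_pos ev_le ev_L kk_cont kk_nonneg kk_le)
open Pool.Agent.Q260.GX

variable {G : Dat}

lemma Qf_gd (hG : G.Good) {κ a : ℝ} (hκ : 0 < κ) (hx : 0 < a / LL κ) (h1 : a / LL κ ≤ 1 / 4)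
    (hL : 0 < LL κ) :
    ∫ t, (h0 κ t * G.DD (a / LL κ) t) ^ 2 = 2 * (κ * LL κ ^ 2 * G.KI (kk 1) κ a) := by
  have hev : ∀ t : ℝ, (h0 κ |t| * G.DD (a / LL κ) |t|) ^ 2 = (h0 κ t * G.DD (a / LL κ) t) ^ 2 := by
    intro t
    rcases abs_choice t with h | h
    · rw [h]
    · rw [h, h0_even, hG.lde _ _ hx h1]
  have e1 : ∫ t, (h0 κ t * G.DD (a / LL κ) t) ^ 2 =
      2 * ∫ t in Ioi (0 : ℝ), (h0 κ t * G.DD (a / LL κ) t) ^ 2 := by
    rw [← integral_comp_abs (f := fun t => (h0 κ t * G.DD (a / LL κ) t) ^ 2)]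
    exact integral_congr_ae (ae_of_all _ fun t => (hev t).symm)
  rw [e1]
  congr 1
  have e2 : ∀ t : ℝ, (h0 κ t * G.DD (a / LL κ) t) ^ 2 =
      κ ^ 2 * LL κ ^ 2 * (kk 1 (κ * t) * G.gd κ a (κ * t)) := by
    intro t
    unfold h0 kk Dat.gd
    have e3 : κ * t / κ = t := by field_simp
    have e4 : 1 * (κ * t) / 2 = κ * t / 2 := by ring
    rw [e3, e4]
    field_simp
  simp only [e2]
  rw [integral_const_mul, integral_comp_mul_left_Ioi (fun y => kk 1 y * G.gd κ a y) 0 hκ, mul_zero,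
    smul_eq_mul]
  unfold Dat.KI
  field_simp

/-- **the fundamental relation** -/
theorem t_T1b (h1' : S_T1a) (h2' : S_TL) : S_T1b := by
  intro G hG hcr a1 a2 h1 h12
  have key : ∀ ε : ℝ, 0 < ε → ∀ᶠ κ : ℝ in 𝓝[>] 0, ∀ a ∈ Icc a1 a2,
      |G.SS κ (a / LL κ) - 2 / Real.pi * (κ * LL κ ^ 2 * G.KI (kk 1) κ a)| ≤
        ε * (κ * LL κ ^ 2) := by
    intro ε hε
    obtain ⟨C, hC, hT⟩ := h1' G hG
    have hq : Tendsto (fun κ : ℝ => C / a1 ^ 2 * κ ^ (1 / 4 : ℝ)) (𝓝[>] 0) (𝓝 0) := by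
      have h2 : Tendsto (fun κ : ℝ => κ ^ (1 / 4 : ℝ)) (𝓝 0) (𝓝 (0 ^ (1 / 4 : ℝ))) :=
        (Real.continuousAt_rpow_const 0 (1 / 4) (Or.inr (by norm_num))).tendsto
      rw [Real.zero_rpow (by norm_num)] at h2
      have h3 := (h2.mono_left (nhdsWithin_le_nhds (s := Ioi 0))).const_mul (C / a1 ^ 2)
      rw [mul_zero] at h3
      exact h3
    filter_upwards [ev_pos, ev_le (c := 1 / 2) (by positivity), ev_L (max 1 (4 * a2)),
      hq.eventually (ge_mem_nhds hε)] with κ hκ hκ1 hL hsm a ha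
    have ha0 : 0 < a := by linarith [ha.1]
    have hL1 : 1 ≤ LL κ := (le_max_left _ _).trans hL
    have hL4 : 4 * a2 ≤ LL κ := (le_max_right _ _).trans hL
    have hLp : 0 < LL κ := by linarith
    have hx0 : 0 < a / LL κ := by positivity
    have hx1 : a / LL κ ≤ 1 / 4 := by rw [div_le_iff₀ hLp]; linarith [ha.2]
    have h2 := hT κ (a / LL κ) (by positivity) hκ1 hx0 hx1
    rw [Qf_gd hG hκ hx0 hx1 hLp] at h2
    have e : 1 / Real.pi * (2 * (κ * LL κ ^ 2 * G.KI (kk 1) κ a)) =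
        2 / Real.pi * (κ * LL κ ^ 2 * G.KI (kk 1) κ a) := by ring
    rw [e] at h2
    refine h2.trans ?_
    have e2 : κ ^ (5 / 4 : ℝ) = κ ^ (1 / 4 : ℝ) * κ := by
      nth_rewrite 3 [← Real.rpow_one κ]
      rw [← Real.rpow_add hκ]
      norm_num
    have e3 : C / (a / LL κ) ^ 2 * κ ^ (5 / 4 : ℝ) =
        C / a ^ 2 * κ ^ (1 / 4 : ℝ) * (κ * LL κ ^ 2) := by
      rw [e2]; field_simp
    rw [e3]
    apply mul_le_mul_of_nonneg_right _ (by positivity)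
    refine le_trans ?_ hsm
    have h4 : C / a ^ 2 ≤ C / a1 ^ 2 :=
      div_le_div_of_nonneg_left hC.le (by positivity) (pow_le_pow_left₀ h1.le ha.1 2)
    gcongr
  refine ⟨key, ?_⟩
  obtain ⟨C, hC, hB⟩ := h2' G hG hcr a1 a2 h1 h12
  refine ⟨5 * (C * 2) + 1, by positivity, ?_⟩
  filter_upwards [key 1 one_pos, hB, ev_L (max 1 (4 * a2))] with κ hT hBκ hL a ha
  obtain ⟨hκ, hκ1, -, hBκ⟩ := hBκ
  have ha0 : 0 < a := by linarith [ha.1]
  have hL1 : 1 ≤ LL κ := (le_max_left _ _).trans hL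
  have hL4 : 4 * a2 ≤ LL κ := (le_max_right _ _).trans hL
  have hLp : 0 < LL κ := by linarith
  have hx0 : 0 < a / LL κ := by positivity
  have hx1 : a / LL κ ≤ 1 / 4 := by rw [div_le_iff₀ hLp]; linarith [ha.2]
  obtain ⟨hgc, hi, hb, -⟩ := hBκ a ha
  have hb0 := hb 0 le_rfl (by positivity)
  have hsq : Real.sqrt κ ≤ 1 := by rw [Real.sqrt_le_one]; exact hκ1
  have hki : Integrable (fun y => kk 1 y * G.gd κ a y) :=
    gd_integrable (kk_cont 1) hgc (fun y => by rw [abs_of_nonneg (kk_nonneg 1 y)]; exact kk_le 1 y) hi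
  have h2 : G.KI (kk 1) κ a ≤ 5 * (C * 2) := by
    unfold Dat.KI
    calc ∫ y in Ioi (0 : ℝ), kk 1 y * G.gd κ a y ≤ ∫ y in Ioi (0 : ℝ), 5 * (G.gd κ a y / (1 + y ^ 2)) := by
          refine setIntegral_mono_on hki.integrableOn (hi.const_mul _).integrableOn measurableSet_Ioi fun y _ => ?_
          calc kk 1 y * G.gd κ a y ≤ (1 ^ 2 + 4) * (1 / (1 + y ^ 2)) * G.gd κ a y :=
                mul_le_mul_of_nonneg_right (kk_le 1 y) (gd_nonneg κ a y)
            _ = _ := by ring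
      _ = 5 * ∫ y in Ioi (0 : ℝ), G.gd κ a y / (1 + y ^ 2) := integral_const_mul _ _
      _ ≤ 5 * (C * 2) := by
          apply mul_le_mul_of_nonneg_left _ (by positivity)
          refine hb0.trans ?_
          apply mul_le_mul_of_nonneg_left _ hC.le
          have : 1 / (1 + (0 : ℝ)) = 1 := by norm_num
          rw [this]
          linarith
  have h20 : 0 ≤ G.KI (kk 1) κ a :=
    setIntegral_nonneg measurableSet_Ioi fun y _ => mul_nonneg (kk_nonneg 1 y) (gd_nonneg κ a y)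
  have h3 := (abs_le.1 (hT a ha)).2
  have hK : 0 < κ * LL κ ^ 2 := by positivity
  have h4 : 2 / Real.pi * (κ * LL κ ^ 2 * G.KI (kk 1) κ a) ≤
      5 * (C * 2) * (κ * LL κ ^ 2) := by
    have h5 : 2 / Real.pi ≤ 1 := by
      rw [div_le_one Real.pi_pos]; linarith [Real.pi_gt_three]
    calc 2 / Real.pi * (κ * LL κ ^ 2 * G.KI (kk 1) κ a) ≤
          1 * (κ * LL κ ^ 2 * G.KI (kk 1) κ a) :=
          mul_le_mul_of_nonneg_right h5 (by positivity)
      _ ≤ 1 * (κ * LL κ ^ 2 * (5 * (C * 2))) := by gcongr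
      _ = _ := by ring
  have e : (5 * (C * 2) + 1) * (κ * LL κ ^ 2) = 5 * (C * 2) * (κ * LL κ ^ 2) +
    1 * (κ * LL κ ^ 2) := by ring
  rw [e]
  linarith

end Pool.Agent.Q162.GX
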